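import Mathlib
import Pool.Agent.Helper693.PW.Defs

set_option autoImplicit false

namespace PW

variable {N : ℕ}

@[simp] theorem inv_inv (x : Z N) : inv (inv x) = x := by
  simp [inv]

@[simp] theorem inv_fst (x : Z N) : (inv x).1 = x.1 := rfl

theorem inv_ne (x : Z N) : inv x ≠ x := by
  intro h
  have := congrArg Prod.snd h
  simp [inv] at this

theorem inv_ne' (x : Z N) : x ≠ inv x := fun h => inv_ne x h.symm

theorem inv_injective : Function.Injective (inv : Z N → Z N) := fun x y h => by
  have := congrArg inv h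
  simpa using this

theorem eq_or_eq_inv {x y : Z N} (h : x.1 = y.1) : x = y ∨ x = inv y := by
  rcases x with ⟨i, b⟩
  rcases y with ⟨j, c⟩
  simp only at h
  subst h
  cases b <;> cases c <;> simp [inv]

theorem lt_inv (x : Z N) : lt (inv x) = (lt x)⁻¹ := by
  simp [lt, inv, FreeGroup.inv_mk, FreeGroup.invRev]

/-- what happens to a turn in the blow-up -/
def bt (A : Finset (Z N)) (e : Z N) (t : Z N × Z N) : List (Z N × Z N) :=
  if t.1 ∈ A then (if t.2 ∈ A then [t] else [(t.1, inv e), (e, t.2)])
  else (if t.2 ∈ A then [(t.1, e), (inv e, t.2)] else [t])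

theorem flat_open {α : Type*} (g : α × α → List α) : ∀ (l : List α) (x y : α),
    (List.zip (x :: l) (l ++ [y])).flatMap (fun t => t.1 :: g t) ++ [y] =
      x :: (List.zip (x :: l) (l ++ [y])).flatMap (fun t => g t ++ [t.2])
  | [], x, y => by simp
  | z :: l, x, y => by
    have ih := flat_open g l z y
    simp only [List.cons_append, List.zip_cons_cons, List.flatMap_cons, List.append_assoc]
      at ih ⊢
    rw [ih]
    simp

theorem flat_rotate {α : Type*} (g : α × α → List α) (L : List α) :
    ((List.zip L (L.rotate 1)).flatMap (fun t => t.1 :: g t)).rotate 1 =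
      (List.zip L (L.rotate 1)).flatMap (fun t => g t ++ [t.2]) := by
  cases L with
  | nil => simp
  | cons x l =>
    have h := flat_open g l x x
    simp only [List.rotate_cons_succ, List.rotate_zero]
    cases l with
    | nil => simp
    | cons z l =>
      simp only [List.cons_append, List.zip_cons_cons, List.flatMap_cons, List.append_assoc,
        List.rotate_cons_succ, List.rotate_zero, List.cons.injEq, true_and] at h ⊢
      exact h

theorem zip_flatMap {α β γ : Type*} (f : α → List β) (g : α → List γ)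
    (h : ∀ t, (f t).length = (g t).length) (l : List α) :
    List.zip (l.flatMap f) (l.flatMap g) = l.flatMap (fun t => List.zip (f t) (g t)) := by
  induction l with
  | nil => simp
  | cons a l ih =>
    simp only [List.flatMap_cons]
    rw [List.zip_append (h a), ih]

theorem turns_eq (L : List (Z N)) :
    turns L = (List.zip L (L.rotate 1)).map (fun t => (inv t.1, t.2)) := by
  simp only [turns, List.zip_map_left]
  rfl

theorem turns_blow (A : Finset (Z N)) (e : Z N) (L : List (Z N)) :
    turns (blow A e L) = (turns L).flatMap (bt A e) := by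
  unfold turns blow
  rw [flat_rotate, List.map_flatMap, zip_flatMap]
  · rw [← turns.eq_1, turns_eq, List.flatMap_map]
    congr 1
    funext t
    rcases t with ⟨x, y⟩
    by_cases h1 : inv x ∈ A <;> by_cases h2 : y ∈ A <;> simp [bt, h1, h2]
  · intro t
    simp

/-! conjugacy -/

theorem mk_flatMap {α : Type*} (f : α → List (Z N)) (l : List α) :
    FreeGroup.mk (l.flatMap f) = (l.map (fun t => FreeGroup.mk (f t))).prod := by
  induction l with
  | nil => simp [FreeGroup.one_eq_mk]
  | cons a l ih =>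
    rw [List.flatMap_cons, List.map_cons, List.prod_cons, ← ih, FreeGroup.mul_mk]

theorem mk_prod (L : List (Z N)) : FreeGroup.mk L = (L.map lt).prod := by
  induction L with
  | nil => simp [FreeGroup.one_eq_mk]
  | cons a l ih =>
    rw [List.map_cons, List.prod_cons, ← ih, lt, FreeGroup.mul_mk]
    rfl

theorem tele_open {α G : Type*} [Group G] (c y d : α → G) : ∀ (l : List α) (x w : α),
    ((x :: l).map (fun z => c z * y z * (d z)⁻¹)).prod =
      c x * ((List.zip (x :: l) (l ++ [w])).map
        (fun t => y t.1 * ((d t.1)⁻¹ * c t.2))).prod * (c w)⁻¹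
  | [], x, w => by simp [mul_assoc]
  | z :: l, x, w => by
    have ih := tele_open c y d l z w
    simp only [List.map_cons, List.prod_cons, List.cons_append, List.zip_cons_cons] at ih ⊢
    rw [ih]
    group

theorem tele_conj {α G : Type*} [Group G] (c y d : α → G) (L : List α) :
    IsConj ((List.zip L (L.rotate 1)).map (fun t => y t.1 * ((d t.1)⁻¹ * c t.2))).prod
      (L.map (fun z => c z * y z * (d z)⁻¹)).prod := by
  cases L with
  | nil => simp
  | cons x l =>
    rw [tele_open c y d l x x]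
    simp only [List.rotate_cons_succ, List.rotate_zero]
    rw [isConj_iff]
    exact ⟨c x, rfl⟩

theorem aut_lt (A : Finset (Z N)) (e x : Z N) (h : x.1 ≠ e.1) :
    aut A e (lt x) = (if x ∈ A then lt e else 1) * lt x * (if inv x ∈ A then lt e else 1)⁻¹ := by
  rcases x with ⟨i, b⟩
  have hi : ¬ i = e.1 := h
  cases b
  · have h1 : lt ((i, false) : Z N) = (FreeGroup.of i)⁻¹ := lt_inv ((i, true) : Z N)
    rw [h1, map_inv]
    simp only [aut, FreeGroup.lift_apply_of, hi, if_false]
    simp only [inv, Bool.not_false]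
    by_cases h2 : (i, true) ∈ A <;> by_cases h3 : (i, false) ∈ A <;> simp [h2, h3, mul_assoc]
  · have h1 : lt ((i, true) : Z N) = FreeGroup.of i := rfl
    rw [h1]
    simp only [aut, FreeGroup.lift_apply_of, hi, if_false]
    simp only [inv, Bool.not_true]
    by_cases h2 : (i, true) ∈ A <;> by_cases h3 : (i, false) ∈ A <;> simp [h2, h3, mul_assoc]

theorem aut_lt_self (A : Finset (Z N)) (e x : Z N) (h : x.1 = e.1) :
    aut A e (lt x) = lt x := by
  rcases x with ⟨i, b⟩
  have hi : i = e.1 := h
  cases b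
  · have h1 : lt ((i, false) : Z N) = (FreeGroup.of i)⁻¹ := lt_inv ((i, true) : Z N)
    rw [h1, map_inv]
    simp only [aut, FreeGroup.lift_apply_of, hi, if_true]
  · have h1 : lt ((i, true) : Z N) = FreeGroup.of i := rfl
    rw [h1]
    simp only [aut, FreeGroup.lift_apply_of, hi, if_true]

theorem aut_mk (A : Finset (Z N)) (e : Z N) (L : List (Z N)) :
    aut A e (FreeGroup.mk L) = (L.map (fun x => aut A e (lt x))).prod := by
  rw [mk_prod, map_list_prod, List.map_map]
  rfl

theorem blow_conj (A : Finset (Z N)) (e : Z N) (L : List (Z N)) (he : ∀ x ∈ L, x.1 ≠ e.1) :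
    IsConj (FreeGroup.mk (blow A e L)) (aut A e (FreeGroup.mk L)) := by
  have h := tele_conj (fun z : Z N => (if z ∈ A then lt e else 1)) lt
    (fun z => (if inv z ∈ A then lt e else 1)) L
  have h1 : FreeGroup.mk (blow A e L) = ((List.zip L (L.rotate 1)).map (fun t => lt t.1 *
      (((if inv t.1 ∈ A then lt e else 1))⁻¹ * (if t.2 ∈ A then lt e else 1)))).prod := by
    rw [blow, mk_flatMap]
    congr 1
    apply List.map_congr_left
    intro t ht
    rw [mk_prod]
    by_cases h1 : inv t.1 ∈ A <;> by_cases h2 : t.2 ∈ A <;> simp [h1, h2, lt_inv]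
  have h2 : aut A e (FreeGroup.mk L) = (L.map (fun z => (if z ∈ A then lt e else 1) * lt z *
      ((if inv z ∈ A then lt e else 1))⁻¹)).prod := by
    rw [aut_mk]
    congr 1
    apply List.map_congr_left
    intro x hx
    exact aut_lt A e x (he x hx)
  rw [h1, h2]
  exact h

theorem aut_aut_inv (A : Finset (Z N)) (e : Z N) (w : FreeGroup (Fin N)) :
    aut A (inv e) (aut A e w) = w := by
  have h : (aut A (inv e)).comp (aut A e) = MonoidHom.id _ := by
    apply FreeGroup.ext_hom
    intro i
    have h1 : FreeGroup.of i = lt ((i, true) : Z N) := rfl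
    simp only [MonoidHom.comp_apply, MonoidHom.id_apply]
    rw [h1]
    by_cases hi : i = e.1
    · rw [aut_lt_self A e _ hi, aut_lt_self A (inv e) _ hi]
    · rw [aut_lt A e _ hi]
      simp only [map_mul, map_inv]
      rw [aut_lt A (inv e) _ hi]
      have h2 : aut A (inv e) (lt e) = lt e := aut_lt_self A (inv e) e rfl
      rw [lt_inv]
      by_cases h2' : (i, true) ∈ A <;> by_cases h3 : inv (i, true) ∈ A <;>
        simp [h2', h3, mul_assoc, h2]
  have := DFunLike.congr_fun h w
  simpa using this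

theorem aut_bij (A : Finset (Z N)) (e : Z N) : Function.Bijective (aut A e) := by
  rw [Function.bijective_iff_has_inverse]
  refine ⟨aut A (inv e), aut_aut_inv A e, ?_⟩
  intro w
  have := aut_aut_inv A (inv e) w
  rwa [inv_inv] at this

/-- `aut` as an equivalence -/
noncomputable def autE (A : Finset (Z N)) (e : Z N) : FreeGroup (Fin N) ≃* FreeGroup (Fin N) :=
  MulEquiv.ofBijective (aut A e) (aut_bij A e)

theorem autE_apply (A : Finset (Z N)) (e : Z N) (w : FreeGroup (Fin N)) :
    autE A e w = aut A e w := rfl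

/-! counting -/

theorem length_turns (L : List (Z N)) : (turns L).length = L.length := by
  simp [turns]

theorem mem_turns {L : List (Z N)} {t : Z N × Z N} (h : t ∈ turns L) : inv t.1 ∈ L ∧ t.2 ∈ L := by
  rcases t with ⟨x, y⟩
  have h1 := List.of_mem_zip h
  refine ⟨?_, ?_⟩
  · obtain ⟨z, hz, hz'⟩ := List.mem_map.1 h1.1
    simp only [← hz', inv_inv]
    exact hz
  · exact (List.mem_rotate).1 h1.2

theorem deg_eq (L : List (Z N)) (i : Fin N) :
    deg L i = (turns L).countP (fun t => decide (t.2.1 = i)) := by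
  have h1 : (turns L).map Prod.snd = L.rotate 1 := by
    unfold turns
    rw [List.map_snd_zip]
    simp
  have h2 : (turns L).countP (fun t => decide (t.2.1 = i)) =
      ((turns L).map Prod.snd).countP (fun x => decide (x.1 = i)) := by
    rw [List.countP_map]
    rfl
  rw [h2, h1, deg]
  exact (List.rotate_perm L 1).symm.countP_eq _

theorem blow_length (A : Finset (Z N)) (e : Z N) (L : List (Z N)) :
    (blow A e L).length = L.length + cap L A := by
  have key : ∀ l : List (Z N × Z N), (l.flatMap (bt A e)).length =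
      l.length + l.countP (fun t => (t.1 ∈ A ∧ t.2 ∈ Aᶜ) ∨ (t.1 ∈ Aᶜ ∧ t.2 ∈ A)) := by
    intro l
    induction l with
    | nil => simp
    | cons t l ih =>
      rw [List.flatMap_cons, List.length_append, ih, List.length_cons, List.countP_cons]
      by_cases h1 : t.1 ∈ A <;> by_cases h2 : t.2 ∈ A <;> simp [bt, h1, h2] <;> omega
  rw [← length_turns (blow A e L), turns_blow, key, length_turns]
  rfl

theorem blow_deg_self (A : Finset (Z N)) (e : Z N) (L : List (Z N)) (he : ∀ x ∈ L, x.1 ≠ e.1) :
    deg (blow A e L) e.1 = cap L A := by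
  have key : ∀ l : List (Z N × Z N), (∀ t ∈ l, t.2.1 ≠ e.1) → (l.flatMap (bt A e)).countP
      (fun t => decide (t.2.1 = e.1)) =
      l.countP (fun t => (t.1 ∈ A ∧ t.2 ∈ Aᶜ) ∨ (t.1 ∈ Aᶜ ∧ t.2 ∈ A)) := by
    intro l hl
    induction l with
    | nil => simp
    | cons t l ih =>
      rw [List.flatMap_cons, List.countP_append, ih (fun s hs => hl s (List.mem_cons_of_mem _ hs)),
        List.countP_cons]
      have ht := hl t List.mem_cons_self
      by_cases h1 : t.1 ∈ A <;> by_cases h2 : t.2 ∈ A <;> simp [bt, h1, h2, ht] <;> omega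
  rw [deg_eq, turns_blow, key]
  · rfl
  · intro t ht
    exact he _ (mem_turns ht).2

theorem blow_deg_other (A : Finset (Z N)) (e : Z N) (L : List (Z N)) (i : Fin N) (hi : i ≠ e.1) :
    deg (blow A e L) i = deg L i := by
  have hi' : ¬ (e.1 = i) := fun h => hi h.symm
  have key : ∀ l : List (Z N × Z N), (l.flatMap (bt A e)).countP
      (fun t => decide (t.2.1 = i)) = l.countP (fun t => decide (t.2.1 = i)) := by
    intro l
    induction l with
    | nil => simp
    | cons t l ih =>
      rw [List.flatMap_cons, List.countP_append, ih, List.countP_cons, add_comm]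
      congr 1
      by_cases h1 : t.1 ∈ A <;> by_cases h2 : t.2 ∈ A <;>
        simp [bt, h1, h2, List.countP_cons, hi']
  rw [deg_eq, turns_blow, key, deg_eq]

theorem mem_turns_blow {A : Finset (Z N)} {e : Z N} {L : List (Z N)} {t : Z N × Z N} :
    t ∈ turns (blow A e L) ↔ ∃ s ∈ turns L, t ∈ bt A e s := by
  rw [turns_blow, List.mem_flatMap]

theorem blow_tight (A : Finset (Z N)) (e : Z N) (L : List (Z N)) (he : ∀ x ∈ L, x.1 ≠ e.1)
    (h : Tight L) : Tight (blow A e L) := by
  intro t ht
  obtain ⟨s, hs, hts⟩ := mem_turns_blow.1 ht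
  have h1 := h s hs
  have h2 := he _ (mem_turns hs).1
  have h3 := he _ (mem_turns hs).2
  rw [inv_fst] at h2
  unfold bt at hts
  split_ifs at hts
  · simp only [List.mem_singleton] at hts
    rwa [hts]
  · simp only [List.mem_cons, List.not_mem_nil, or_false] at hts
    rcases hts with rfl | rfl
    · intro h4
      apply h2
      have := congrArg Prod.fst h4
      simpa using this
    · intro h4
      apply h3
      have := congrArg Prod.fst h4
      simpa using this.symm
  · simp only [List.mem_cons, List.not_mem_nil, or_false] at hts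
    rcases hts with rfl | rfl
    · intro h4
      apply h2
      have := congrArg Prod.fst h4
      simpa using this
    · intro h4
      apply h3
      have := congrArg Prod.fst h4
      simpa using this.symm
  · simp only [List.mem_singleton] at hts
    rwa [hts]

/-- vertices after the blow-up of `A` at the vertex `p`: the new vertex `q` carries `A` and
`inv e`, and `e` is at `p` -/
def bpi (π : Z N → ℕ) (A : Finset (Z N)) (e : Z N) (p q : ℕ) : Z N → ℕ :=
  fun x => if x ∈ A ∨ x = inv e then q else if x = e then p else π x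

theorem blow_path (A : Finset (Z N)) (e : Z N) (L : List (Z N)) (he : ∀ x ∈ L, x.1 ≠ e.1)
    (hA : ∀ x ∈ A, x.1 ≠ e.1) (π : Z N → ℕ) (p q : ℕ) (hp : ∀ x ∈ A, π x = p)
    (h : ∀ t ∈ turns L, π t.1 = π t.2) :
    ∀ t ∈ turns (blow A e L), bpi π A e p q t.1 = bpi π A e p q t.2 := by
  intro t ht
  obtain ⟨s, hs, hts⟩ := mem_turns_blow.1 ht
  have h1 := h s hs
  have h2 := he _ (mem_turns hs).1
  have h3 := he _ (mem_turns hs).2
  rw [inv_fst] at h2
  have e1 : e ∉ A := fun h => hA e h rfl
  have e2 : inv e ∉ A := fun h => hA _ h rfl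
  have a1 : s.1 ≠ e := fun h => h2 (by rw [h])
  have a2 : s.1 ≠ inv e := fun h => h2 (by rw [h]; rfl)
  have a3 : s.2 ≠ e := fun h => h3 (by rw [h])
  have a4 : s.2 ≠ inv e := fun h => h3 (by rw [h]; rfl)
  have a5 := inv_ne' e
  unfold bt at hts
  split_ifs at hts with c1 c2 c2
  · simp only [List.mem_singleton] at hts
    subst hts
    simp [bpi, c1, c2]
  · simp only [List.mem_cons, List.not_mem_nil, or_false] at hts
    rcases hts with rfl | rfl
    · simp [bpi, c1]
    · simp only [bpi, e1, a5, c2, a3, a4, or_self, if_false, if_true]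
      rw [← h1, hp _ c1]
  · simp only [List.mem_cons, List.not_mem_nil, or_false] at hts
    rcases hts with rfl | rfl
    · simp only [bpi, e1, a5, c1, a1, a2, or_self, if_false, if_true]
      rw [h1, hp _ c2]
    · simp [bpi, c2]
  · simp only [List.mem_singleton] at hts
    subst hts
    simp only [bpi, c1, c2, a1, a2, a3, a4, or_self, if_false]
    exact h1

theorem blow_ne {A : Finset (Z N)} {e : Z N} {L : List (Z N)} (h : L ≠ []) : blow A e L ≠ [] := by
  intro h1
  have h2 := blow_length A e L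
  rw [h1] at h2
  have h3 : 0 < L.length := List.length_pos_of_ne_nil h
  simp at h2
  omega

/-- blow-up of a good list (moves S2, S3) -/
theorem blow_good {L : List (Z N)} {Lg : Finset (Fin N)} {π : Z N → ℕ} {B : ℕ}
    (hG : Good L Lg π B) (A : Finset (Z N)) (e : Z N) (he : ∀ x ∈ L, x.1 ≠ e.1)
    (hA : ∀ x ∈ A, x.1 ≠ e.1) (heL : e.1 ∉ Lg) (p q : ℕ) (hp : ∀ x ∈ A, π x = p)
    (hcl : Closed Lg A) (B' : ℕ) (hB : B ≤ B') (hc : cap L A ≤ B') :
    Good (blow A e L) Lg (bpi π A e p q) B' where
  ne := blow_ne hG.ne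
  tight := blow_tight A e L he hG.tight
  path := blow_path A e L he hA π p q hp hG.path
  loop := by
    intro i hi
    have hie : i ≠ e.1 := fun h => heL (h ▸ hi)
    have a1 : ((i, true) : Z N) ≠ e := fun h => hie (by rw [← h])
    have a2 : ((i, true) : Z N) ≠ inv e := fun h => hie (by
      have := congrArg Prod.fst h
      simpa using this)
    have a3 : ((i, false) : Z N) ≠ e := fun h => hie (by rw [← h])
    have a4 : ((i, false) : Z N) ≠ inv e := fun h => hie (by
      have := congrArg Prod.fst h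
      simpa using this)
    have h1 : ((i, true) : Z N) ∈ A ↔ ((i, false) : Z N) ∈ A := by
      constructor
      · intro h
        exact hcl _ h hi
      · intro h
        exact hcl _ h hi
    by_cases c : ((i, true) : Z N) ∈ A
    · have c' := h1.1 c
      simp [bpi, c, c']
    · have c' : ((i, false) : Z N) ∉ A := fun h => c (h1.2 h)
      simp only [bpi, c, c', a1, a2, a3, a4, or_self, if_false]
      exact hG.loop i hi
  small := by
    intro i hi
    by_cases h : i = e.1
    · rw [h, blow_deg_self A e L he]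
      exact hc
    · rw [blow_deg_other A e L i h]
      exact (hG.small i hi).trans hB

theorem blow_orb {u : FreeGroup (Fin N)} {L : List (Z N)} (hu : Orb u L) (A : Finset (Z N))
    (e : Z N) (he : ∀ x ∈ L, x.1 ≠ e.1) : Orb u (blow A e L) := by
  obtain ⟨φ, hφ⟩ := hu
  refine ⟨φ.trans (autE A e), ?_⟩
  have h1 : IsConj (autE A e (φ u)) (autE A e (FreeGroup.mk L)) := by
    rw [isConj_iff] at hφ ⊢
    obtain ⟨c, hc⟩ := hφ
    exact ⟨autE A e c, by rw [← hc]; simp⟩
  exact h1.trans (blow_conj A e L he).symm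

/-! ### rotation -/

theorem j32903_zip_rotate {α β : Type*} (l : List α) (m : List β) (h : l.length = m.length)
    (n : ℕ) : List.zip (l.rotate n) (m.rotate n) = (List.zip l m).rotate n := by
  apply List.ext_getElem
  · simp [h]
  · intro i h1 h2
    simp [List.getElem_zip, List.getElem_rotate, h]

theorem turns_rotate (L : List (Z N)) (n : ℕ) : turns (L.rotate n) = (turns L).rotate n := by
  unfold turns
  rw [List.map_rotate, List.rotate_rotate, Nat.add_comm n 1, ← List.rotate_rotate]
  exact j32903_zip_rotate _ _ (by simp) n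

theorem flatMap_rotated {α β : Type*} (f : α → List β) {P Q : List α} (h : P ~r Q) :
    (P.flatMap f) ~r (Q.flatMap f) := by
  obtain ⟨n, hn, rfl⟩ := List.isRotated_iff_mod.1 h
  rw [List.rotate_eq_drop_append_take hn]
  conv_lhs => rw [← List.take_append_drop n P]
  rw [List.flatMap_append, List.flatMap_append]
  exact List.isRotated_append

theorem blow_rotated (A : Finset (Z N)) (e : Z N) {L L' : List (Z N)} (h : L ~r L') :
    (blow A e L) ~r (blow A e L') := by
  unfold blow
  apply flatMap_rotated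
  obtain ⟨n, rfl⟩ := h
  refine ⟨n, ?_⟩
  rw [← j32903_zip_rotate _ _ (by simp), List.rotate_rotate, List.rotate_rotate, Nat.add_comm 1 n]

theorem mk_rotated {L L' : List (Z N)} (h : L ~r L') :
    IsConj (FreeGroup.mk L) (FreeGroup.mk L') := by
  obtain ⟨n, hn, rfl⟩ := List.isRotated_iff_mod.1 h
  rw [List.rotate_eq_drop_append_take hn]
  conv_lhs => rw [← List.take_append_drop n L]
  rw [← FreeGroup.mul_mk, ← FreeGroup.mul_mk, isConj_iff]
  exact ⟨(FreeGroup.mk (List.take n L))⁻¹, by group⟩

theorem mem_turns_rotated {L L' : List (Z N)} (h : L ~r L') (t : Z N × Z N) :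
    t ∈ turns L ↔ t ∈ turns L' := by
  obtain ⟨n, rfl⟩ := h
  rw [turns_rotate, List.mem_rotate]

/-! ### collapse -/

/-- what is inserted between two consecutive letters in a blow-up -/
def ins (A : Finset (Z N)) (e : Z N) (t : Z N × Z N) : List (Z N) :=
  if inv t.1 ∈ A then (if t.2 ∈ A then [] else [inv e]) else (if t.2 ∈ A then [e] else [])

theorem co_ne_inv {x a : Z N} (h : x.1 ≠ a.1) : x ≠ inv a := fun h' => h (by rw [h']; rfl)

theorem co_eq {x a : Z N} (h : x.1 = a.1) : x = a ∨ x = inv a := by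
  obtain ⟨i, b⟩ := x
  obtain ⟨j, c⟩ := a
  simp only at h
  subst h
  cases b <;> cases c <;> simp [inv]

theorem co_nil (π : Z N → ℕ) (a : Z N) (A : Finset (Z N))
    (hA : ∀ z, z ∈ A ↔ (π z = π (inv a) ∧ z ≠ inv a)) (x y : Z N) (hx : x.1 ≠ a.1)
    (hy : y.1 ≠ a.1) (h : π (inv x) = π y) : ins A a (x, y) = [] := by
  have h1 : inv x ∈ A ↔ y ∈ A := by
    rw [hA, hA, h]
    have e1 : inv x ≠ inv a := co_ne_inv (a := a) (x := inv x) hx
    have e2 : y ≠ inv a := co_ne_inv hy
    tauto
  unfold ins
  by_cases hyA : y ∈ A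
  · simp only [h1, hyA, if_true]
  · simp only [h1, hyA, if_false]

theorem co_next (π : Z N → ℕ) (a : Z N) (ha : π a ≠ π (inv a)) (z w : Z N) (hz : z.1 = a.1)
    (h : π (inv z) = π w ∧ inv z ≠ w) : w.1 ≠ a.1 := by
  intro hw
  rcases co_eq hz with rfl | rfl
  · rcases co_eq hw with rfl | rfl
    · exact ha h.1.symm
    · exact h.2 rfl
  · rw [inv_inv] at h
    rcases co_eq hw with rfl | rfl
    · exact h.2 rfl
    · exact ha h.1

theorem co_ins (π : Z N → ℕ) (a : Z N) (ha : π a ≠ π (inv a)) (A : Finset (Z N))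
    (hA : ∀ z, z ∈ A ↔ (π z = π (inv a) ∧ z ≠ inv a)) (x z w : Z N) (hx : x.1 ≠ a.1)
    (hz : z.1 = a.1) (hw : w.1 ≠ a.1) (h1 : π (inv x) = π z) (h2 : π (inv z) = π w) :
    ins A a (x, w) = [z] := by
  unfold ins
  rcases co_eq hz with rfl | rfl
  · have e1 : inv x ∉ A := by
      rw [hA]
      rintro ⟨h3, _⟩
      exact ha (h1.symm.trans h3)
    have e2 : w ∈ A := by
      rw [hA]
      exact ⟨h2.symm, co_ne_inv hw⟩
    simp only [e1, e2, if_true, if_false]
  · have e1 : inv x ∈ A := by
      rw [hA]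
      exact ⟨h1, co_ne_inv (a := a) (x := inv x) hx⟩
    have e2 : w ∉ A := by
      rw [hA]
      rintro ⟨h3, _⟩
      rw [inv_inv] at h2
      exact ha (h2.trans h3)
    simp only [e1, e2, if_true, if_false]

theorem co_coll_pos (i : Fin N) (z : Z N) (l : List (Z N)) (h : z.1 ≠ i) :
    coll i (z :: l) = z :: coll i l := by
  unfold coll
  rw [List.filter_cons_of_pos (by simpa using h)]

theorem co_coll_neg (i : Fin N) (z : Z N) (l : List (Z N)) (h : z.1 = i) :
    coll i (z :: l) = coll i l := by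
  unfold coll
  rw [List.filter_cons_of_neg (by simpa using h)]

/-- open path version: the path is `x :: l ++ [y]`; consecutive letters `z, w` satisfy
`π (inv z) = π w` and `inv z ≠ w`; `A` is the vertex of `inv a` without `inv a`. -/
theorem coll_open (π : Z N → ℕ) (a : Z N) (ha : π a ≠ π (inv a)) (A : Finset (Z N))
    (hA : ∀ z, z ∈ A ↔ (π z = π (inv a) ∧ z ≠ inv a)) (n : ℕ) :
    ∀ (x : Z N) (l : List (Z N)) (y : Z N), l.length ≤ n → x.1 ≠ a.1 → y.1 ≠ a.1 →
      List.IsChain (fun z w => π (inv z) = π w ∧ inv z ≠ w) (x :: (l ++ [y])) →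
      x :: l = (List.zip (x :: coll a.1 l) (coll a.1 l ++ [y])).flatMap
        (fun t => t.1 :: ins A a t) := by
  induction n with
  | zero =>
    intro x l y hl hx hy hch
    have hl0 : l = [] := List.length_eq_zero_iff.mp (Nat.le_zero.mp hl)
    subst hl0
    rw [List.nil_append, List.isChain_cons_cons] at hch
    have h1 := co_nil π a A hA x y hx hy hch.1.1
    simp [coll, h1]
  | succ n ih =>
    intro x l y hl hx hy hch
    match l, hl, hch with
    | [], _, hch =>
      rw [List.nil_append, List.isChain_cons_cons] at hch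
      have h1 := co_nil π a A hA x y hx hy hch.1.1
      simp [coll, h1]
    | z :: l1, hl, hch =>
      rw [List.cons_append, List.isChain_cons_cons] at hch
      by_cases hz : z.1 = a.1
      · rw [co_coll_neg _ _ _ hz]
        match l1, hl, hch with
        | [], _, hch =>
          rw [List.nil_append, List.isChain_cons_cons] at hch
          have h1 := co_ins π a ha A hA x z y hx hz hy hch.1.1 hch.2.1.1
          simp [coll, h1]
        | w :: l2, hl, hch =>
          rw [List.cons_append, List.isChain_cons_cons] at hch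
          have hw := co_next π a ha z w hz hch.2.1
          have h1 := co_ins π a ha A hA x z w hx hz hw hch.1.1 hch.2.1.1
          rw [co_coll_pos _ _ _ hw]
          have h2 := ih w l2 y (by simp only [List.length_cons] at hl; omega) hw hy hch.2.2
          rw [List.cons_append, List.zip_cons_cons, List.flatMap_cons, ← h2]
          simp [h1]
      · rw [co_coll_pos _ _ _ hz]
        have h1 := co_nil π a A hA x z hx hz hch.1.1
        have h2 := ih z l1 y (by simp only [List.length_cons] at hl; omega) hz hy hch.2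
        rw [List.cons_append, List.zip_cons_cons, List.flatMap_cons, ← h2]
        simp [h1]

/-- vertices after the collapse of `a`: the vertex of `inv a` is merged into the vertex of `a` -/
def cpi (π : Z N → ℕ) (a : Z N) : Z N → ℕ := fun x => if π x = π (inv a) then π a else π x

/-- the half-edges of the vertex of `inv a`, except `inv a` -/
def cset (π : Z N → ℕ) (a : Z N) : Finset (Z N) := (blk π (π (inv a))).erase (inv a)

theorem mem_cset (π : Z N → ℕ) (a z : Z N) : z ∈ cset π a ↔ (π z = π (inv a) ∧ z ≠ inv a) := by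
  simp [cset, blk, and_comm]

theorem chain_of_zip {α : Type*} (R : α → α → Prop) : ∀ (l : List α) (x y : α),
    (∀ t ∈ List.zip (x :: l) (l ++ [y]), R t.1 t.2) → List.IsChain R (x :: (l ++ [y]))
  | [], x, y, h => by
    simpa using h
  | z :: l, x, y, h => by
    rw [List.cons_append, List.isChain_cons_cons]
    refine ⟨?_, chain_of_zip R l z y ?_⟩
    · exact h (x, z) (by simp)
    · intro t ht
      apply h t
      rw [List.cons_append, List.zip_cons_cons]
      exact List.mem_cons_of_mem _ ht

theorem coll_append (i : Fin N) (l m : List (Z N)) : coll i (l ++ m) = coll i l ++ coll i m := by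
  simp [coll]

theorem coll_blow_of_head {l : List (Z N)} {x : Z N} {π : Z N → ℕ} (a : Z N)
    (ha : π a ≠ π (inv a)) (hx : x.1 ≠ a.1)
    (ht : Tight (x :: l)) (hp : ∀ t ∈ turns (x :: l), π t.1 = π t.2) :
    x :: l = blow (cset π a) a (coll a.1 (x :: l)) := by
  have hch : List.IsChain (fun z w => π (inv z) = π w ∧ inv z ≠ w) (x :: (l ++ [x])) := by
    apply chain_of_zip
    intro t h
    have h' : (inv t.1, t.2) ∈ turns (x :: l) := by
      rw [turns_eq, List.mem_map]
      refine ⟨t, ?_, rfl⟩
      simpa using h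
    exact ⟨hp _ h', ht _ h'⟩
  have h := coll_open π a ha (cset π a) (mem_cset π a) l.length x l x le_rfl hx hx hch
  rw [co_coll_pos _ _ _ hx, blow]
  rw [List.rotate_cons_succ, List.rotate_zero]
  exact h

theorem coll_blow {L : List (Z N)} {π : Z N → ℕ} (a : Z N) (ha : π a ≠ π (inv a)) (hne : L ≠ [])
    (ht : Tight L) (hp : ∀ t ∈ turns L, π t.1 = π t.2) :
    (coll a.1 L) ≠ [] ∧ List.IsRotated L (blow (cset π a) a (coll a.1 L)) := by
  have h1 : ∃ x ∈ L, x.1 ≠ a.1 := by
    obtain ⟨z, l, rfl⟩ := List.exists_cons_of_ne_nil hne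
    by_cases hz : z.1 = a.1
    · obtain ⟨w, m, hw⟩ : ∃ w m, l ++ [z] = w :: m := by
        cases l with
        | nil => exact ⟨z, [], rfl⟩
        | cons w m => exact ⟨w, m ++ [z], rfl⟩
      have h2 : (inv z, w) ∈ turns (z :: l) := by
        rw [turns_eq, List.mem_map]
        refine ⟨(z, w), ?_, rfl⟩
        rw [List.rotate_cons_succ, List.rotate_zero, hw, List.zip_cons_cons]
        exact List.mem_cons_self
      refine ⟨w, (mem_turns h2).2, ?_⟩
      exact co_next π a ha z w hz ⟨hp _ h2, ht _ h2⟩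
    · exact ⟨z, List.mem_cons_self, hz⟩
  obtain ⟨x, hx, hxa⟩ := h1
  obtain ⟨P, Q, rfl⟩ := List.append_of_mem hx
  have hr : (P ++ x :: Q) ~r (x :: (Q ++ P)) := List.isRotated_append
  have hr2 : (coll a.1 (P ++ x :: Q)) ~r (coll a.1 (x :: (Q ++ P))) := by
    rw [← List.cons_append, coll_append, coll_append]
    exact List.isRotated_append
  have ht' : Tight (x :: (Q ++ P)) := fun t h => ht t ((mem_turns_rotated hr t).2 h)
  have hp' : ∀ t ∈ turns (x :: (Q ++ P)), π t.1 = π t.2 :=
    fun t h => hp t ((mem_turns_rotated hr t).2 h)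
  have h := coll_blow_of_head a ha hxa ht' hp'
  refine ⟨?_, ?_⟩
  · intro h0
    rw [h0] at hr2
    have := List.isRotated_nil_iff'.1 hr2
    rw [co_coll_pos _ _ _ hxa] at this
    exact absurd this.symm (by simp)
  · refine hr.trans ?_
    have h2 := blow_rotated (cset π a) a hr2
    rw [← h] at h2
    exact h2.symm

theorem mem_coll {i : Fin N} {L : List (Z N)} {x : Z N} : x ∈ coll i L ↔ x ∈ L ∧ x.1 ≠ i := by
  simp [coll]

theorem conj_hom {G H : Type*} [Group G] [Group H] (f : G →* H) {x y : G} (h : IsConj x y) :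
    IsConj (f x) (f y) := by
  rw [isConj_iff] at h ⊢
  obtain ⟨c, hc⟩ := h
  exact ⟨f c, by rw [← hc]; simp⟩

theorem coll_conj {L : List (Z N)} {π : Z N → ℕ} (a : Z N) (ha : π a ≠ π (inv a)) (hne : L ≠ [])
    (ht : Tight L) (hp : ∀ t ∈ turns L, π t.1 = π t.2) :
    IsConj (FreeGroup.mk (coll a.1 L)) (aut (cset π a) (inv a) (FreeGroup.mk L)) := by
  have h1 := (mk_rotated (coll_blow a ha hne ht hp).2).trans
    (blow_conj (cset π a) a (coll a.1 L) (fun x hx => (mem_coll.1 hx).2))
  have h2 := conj_hom (aut (cset π a) (inv a)) h1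
  rw [aut_aut_inv] at h2
  exact h2.symm

theorem orb_of_conj {u : FreeGroup (Fin N)} {L L' : List (Z N)} (hu : Orb u L)
    (ψ : FreeGroup (Fin N) ≃* FreeGroup (Fin N))
    (h : IsConj (FreeGroup.mk L') (ψ (FreeGroup.mk L))) : Orb u L' := by
  obtain ⟨φ, hφ⟩ := hu
  refine ⟨φ.trans ψ, ?_⟩
  have h1 : IsConj (ψ (φ u)) (ψ (FreeGroup.mk L)) := conj_hom ψ.toMonoidHom hφ
  exact h1.trans h.symm

theorem coll_orb {u : FreeGroup (Fin N)} {L : List (Z N)} (hu : Orb u L) {π : Z N → ℕ} (a : Z N)
    (ha : π a ≠ π (inv a)) (hne : L ≠ []) (ht : Tight L) (hp : ∀ t ∈ turns L, π t.1 = π t.2) :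
    Orb u (coll a.1 L) :=
  orb_of_conj hu (autE (cset π a) (inv a)) (coll_conj a ha hne ht hp)

theorem turns_coll {L : List (Z N)} {π : Z N → ℕ} (a : Z N) (ha : π a ≠ π (inv a)) (hne : L ≠ [])
    (ht : Tight L) (hp : ∀ t ∈ turns L, π t.1 = π t.2) {t : Z N × Z N}
    (h : t ∈ turns (coll a.1 L)) :
    (t ∈ turns L) ∨ ((t.1, inv a) ∈ turns L ∧ (a, t.2) ∈ turns L ∧ t.1 ∈ cset π a ∧
      t.2 ∉ cset π a) ∨ ((t.1, a) ∈ turns L ∧ (inv a, t.2) ∈ turns L ∧ t.1 ∉ cset π a ∧
      t.2 ∈ cset π a) := by
  have h1 := (coll_blow a ha hne ht hp).2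
  have h2 : ∀ s, s ∈ bt (cset π a) a t → s ∈ turns L := by
    intro s hs
    rw [mem_turns_rotated h1, mem_turns_blow]
    exact ⟨t, h, hs⟩
  by_cases c1 : t.1 ∈ cset π a <;> by_cases c2 : t.2 ∈ cset π a
  · exact Or.inl (h2 t (by simp [bt, c1, c2]))
  · refine Or.inr (Or.inl ⟨h2 _ ?_, h2 _ ?_, c1, c2⟩) <;> simp [bt, c1, c2]
  · refine Or.inr (Or.inr ⟨h2 _ ?_, h2 _ ?_, c1, c2⟩) <;> simp [bt, c1, c2]
  · exact Or.inl (h2 t (by simp [bt, c1, c2]))

theorem coll_tight {L : List (Z N)} {π : Z N → ℕ} (a : Z N) (ha : π a ≠ π (inv a)) (hne : L ≠ [])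
    (ht : Tight L) (hp : ∀ t ∈ turns L, π t.1 = π t.2) : Tight (coll a.1 L) := by
  intro t h h0
  rcases turns_coll a ha hne ht hp h with h1 | ⟨_, _, h1, h2⟩ | ⟨_, _, h1, h2⟩
  · exact ht t h1 h0
  · rw [h0] at h1
    exact h2 h1
  · rw [h0] at h1
    exact h1 h2

theorem coll_path {L : List (Z N)} {π : Z N → ℕ} (a : Z N) (ha : π a ≠ π (inv a)) (hne : L ≠ [])
    (ht : Tight L) (hp : ∀ t ∈ turns L, π t.1 = π t.2) :
    ∀ t ∈ turns (coll a.1 L), cpi π a t.1 = cpi π a t.2 := by
  intro t h
  rcases turns_coll a ha hne ht hp h with h1 | ⟨h3, h4, h1, h2⟩ | ⟨h3, h4, h1, h2⟩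
  · simp only [cpi, hp t h1]
  · have e1 := (mem_cset π a _).1 h1
    have e2 : π a = π t.2 := hp _ h4
    simp only [cpi, e1.1, if_true, ← e2]
    split_ifs <;> rfl
  · have e1 := (mem_cset π a _).1 h2
    have e2 : π t.1 = π a := hp _ h3
    simp only [cpi, e1.1, if_true, e2]
    split_ifs <;> rfl

theorem coll_deg_self (i : Fin N) (L : List (Z N)) : deg (coll i L) i = 0 := by
  unfold deg
  rw [List.countP_eq_zero]
  intro x hx h
  exact (mem_coll.1 hx).2 (of_decide_eq_true h)

theorem coll_deg_other (i j : Fin N) (h : j ≠ i) (L : List (Z N)) :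
    deg (coll i L) j = deg L j := by
  unfold deg coll
  rw [List.countP_filter]
  apply List.countP_congr
  intro x _
  simp only [ne_eq, decide_not, Bool.and_eq_true, decide_eq_true_eq, Bool.not_eq_eq_eq_not,
    Bool.not_true, decide_eq_false_iff_not]
  constructor
  · rintro ⟨h1, _⟩
    exact h1
  · intro h1
    exact ⟨h1, by rw [h1]; exact h⟩

theorem coll_length (i : Fin N) (L : List (Z N)) : (coll i L).length + deg L i = L.length := by
  unfold deg coll
  induction L with
  | nil => simp
  | cons x L ih =>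
    by_cases hx : x.1 = i <;> simp [hx] at ih ⊢ <;> omega

theorem coll_good {L : List (Z N)} {Lg : Finset (Fin N)} {π : Z N → ℕ} {B : ℕ}
    (hG : Good L Lg π B) (a : Z N) (ha : π a ≠ π (inv a)) :
    Good (coll a.1 L) Lg (cpi π a) B where
  ne := (coll_blow a ha hG.ne hG.tight hG.path).1
  tight := coll_tight a ha hG.ne hG.tight hG.path
  path := coll_path a ha hG.ne hG.tight hG.path
  loop := by
    intro i hi
    simp only [cpi, hG.loop i hi]
  small := by
    intro i hi
    by_cases h : i = a.1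
    · rw [h, coll_deg_self]
      exact Nat.zero_le _
    · rw [coll_deg_other _ _ h]
      exact hG.small i hi

/-! ### renaming -/

/-- a signed permutation of the letters as an automorphism -/
def ren (σ : Z N ≃ Z N) : FreeGroup (Fin N) →* FreeGroup (Fin N) :=
  FreeGroup.lift (fun i => lt (σ (i, true)))

theorem ren_mk (σ : Z N ≃ Z N) (hσ : ∀ x, σ (inv x) = inv (σ x)) (L : List (Z N)) :
    ren σ (FreeGroup.mk L) = FreeGroup.mk (L.map σ) := by
  induction L with
  | nil => 
    have : FreeGroup.mk ([] : List (Z N)) = 1 := rfl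
    simp only [List.map_nil]
    rw [this, map_one]
  | cons x L ih =>
    have h1 : (FreeGroup.mk (x :: L) : FreeGroup (Fin N)) = FreeGroup.mk [x] * FreeGroup.mk L := by
      rw [FreeGroup.mul_mk]; rfl
    have h2 : (FreeGroup.mk ((x :: L).map σ) : FreeGroup (Fin N))
        = FreeGroup.mk [σ x] * FreeGroup.mk (L.map σ) := by
      rw [FreeGroup.mul_mk]; rfl
    rw [h1, h2, map_mul, ih]
    congr 1
    obtain ⟨i, b⟩ := x
    cases b
    · have e : (FreeGroup.mk [(i, false)] : FreeGroup (Fin N)) = (FreeGroup.of i)⁻¹ := by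
        simp [FreeGroup.of, FreeGroup.inv_mk, FreeGroup.invRev]
      rw [e, map_inv]
      have : ren σ (FreeGroup.of i) = lt (σ (i, true)) := by
        simp [ren]
      rw [this, ← lt_inv, ← hσ]
      rfl
    · have e : (FreeGroup.mk [(i, true)] : FreeGroup (Fin N)) = FreeGroup.of i := rfl
      rw [e]
      simp [ren, lt]

theorem symm_comm (σ : Z N ≃ Z N) (hσ : ∀ x, σ (inv x) = inv (σ x)) :
    ∀ x, σ.symm (inv x) = inv (σ.symm x) := by
  intro x
  apply σ.injective
  rw [hσ, Equiv.apply_symm_apply, Equiv.apply_symm_apply]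

theorem ren_bij (σ : Z N ≃ Z N) (hσ : ∀ x, σ (inv x) = inv (σ x)) :
    Function.Bijective (ren σ) := by
  have key : ∀ (τ : Z N ≃ Z N) (hτ : ∀ x, τ (inv x) = inv (τ x)) (w : FreeGroup (Fin N)),
      ren τ.symm (ren τ w) = w := by
    intro τ hτ w
    obtain ⟨L, rfl⟩ : ∃ L, FreeGroup.mk L = w := ⟨w.toWord, FreeGroup.mk_toWord⟩
    rw [ren_mk τ hτ, ren_mk τ.symm (symm_comm τ hτ), List.map_map]
    simp
  refine Function.bijective_iff_has_inverse.mpr ⟨ren σ.symm, key σ hσ, ?_⟩
  intro w
  have := key σ.symm (symm_comm σ hσ) w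
  simpa using this

theorem turns_map (σ : Z N ≃ Z N) (hσ : ∀ x, σ (inv x) = inv (σ x)) (L : List (Z N)) :
    turns (L.map σ) = (turns L).map (fun t => (σ t.1, σ t.2)) := by
  unfold turns
  rw [← List.map_rotate, List.map_map]
  have : (inv ∘ σ : Z N → Z N) = σ ∘ inv := by
    funext x
    simp [hσ]
  rw [this, ← List.map_map, List.zip_map]
  rfl

theorem ren_tight {L : List (Z N)} (h : Tight L) (σ : Z N ≃ Z N)
    (hσ : ∀ x, σ (inv x) = inv (σ x)) : Tight (L.map σ) := by
  intro t ht h0
  rw [turns_map σ hσ, List.mem_map] at ht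
  obtain ⟨s, hs, rfl⟩ := ht
  exact h s hs (σ.injective h0)

/-- `ren` as an equivalence -/
noncomputable def renE (σ : Z N ≃ Z N) (hσ : ∀ x, σ (inv x) = inv (σ x)) :
    FreeGroup (Fin N) ≃* FreeGroup (Fin N) :=
  MulEquiv.ofBijective (ren σ) (ren_bij σ hσ)

theorem ren_orb {u : FreeGroup (Fin N)} {L : List (Z N)} (hu : Orb u L) (σ : Z N ≃ Z N)
    (hσ : ∀ x, σ (inv x) = inv (σ x)) : Orb u (L.map σ) := by
  refine orb_of_conj hu (renE σ hσ) ?_
  have : renE σ hσ (FreeGroup.mk L) = FreeGroup.mk (L.map σ) := ren_mk σ hσ L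
  rw [this]

/-! ### Whitehead moves -/

/-- word of the Whitehead automorphism `aut (A.erase a) a` (for `a ∈ A`, `inv a ∉ A`) -/
def wh (A : Finset (Z N)) (a : Z N) (L : List (Z N)) : List (Z N) :=
  (List.zip L (L.rotate 1)).flatMap (fun t => (if t.1.1 = a.1 then [] else [t.1]) ++
    (if inv t.1 ∈ A then (if t.2 ∈ A then [] else [inv a]) else (if t.2 ∈ A then [a] else [])))

theorem aut_erase_lt (A : Finset (Z N)) (a : Z N) (haA : a ∈ A) (haA' : inv a ∉ A) (x : Z N) :
    aut (A.erase a) a (lt x) = (if x ∈ A then lt a else 1) * (if x.1 = a.1 then 1 else lt x) *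
      (if inv x ∈ A then lt a else 1)⁻¹ := by
  by_cases h : x.1 = a.1
  · rw [aut_lt_self _ _ _ h]
    rcases eq_or_eq_inv h with rfl | rfl
    · simp [haA, haA']
    · simp [haA, haA', lt_inv]
  · rw [aut_lt _ _ _ h]
    have h1 : x ≠ a := fun h' => h (by rw [h'])
    have h2 : inv x ≠ a := fun h' => h (by rw [← h']; rfl)
    simp [h, h1, h2]

theorem wh_conj (A : Finset (Z N)) (a : Z N) (haA : a ∈ A) (haA' : inv a ∉ A) (L : List (Z N)) :
    IsConj (FreeGroup.mk (wh A a L)) (aut (A.erase a) a (FreeGroup.mk L)) := by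
  have h := tele_conj (fun z : Z N => (if z ∈ A then lt a else 1))
    (fun x => if x.1 = a.1 then 1 else lt x)
    (fun z => (if inv z ∈ A then lt a else 1)) L
  have h1 : FreeGroup.mk (wh A a L) = ((List.zip L (L.rotate 1)).map (fun t =>
      (if t.1.1 = a.1 then 1 else lt t.1) *
      (((if inv t.1 ∈ A then lt a else 1))⁻¹ * (if t.2 ∈ A then lt a else 1)))).prod := by
    rw [wh, mk_flatMap]
    congr 1
    apply List.map_congr_left
    intro t ht
    rw [mk_prod]
    by_cases h0 : t.1.1 = a.1 <;> by_cases h1 : inv t.1 ∈ A <;> by_cases h2 : t.2 ∈ A <;>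
      simp [h0, h1, h2, lt_inv]
  have h2 : aut (A.erase a) a (FreeGroup.mk L) = (L.map (fun z => (if z ∈ A then lt a else 1) *
      (if z.1 = a.1 then 1 else lt z) * ((if inv z ∈ A then lt a else 1))⁻¹)).prod := by
    rw [aut_mk]
    congr 1
    apply List.map_congr_left
    intro x hx
    exact aut_erase_lt A a haA haA' x
  rw [h1, h2]
  exact h

theorem cap_zip (A : Finset (Z N)) (L : List (Z N)) :
    cap L A = (List.zip L (L.rotate 1)).countP
      (fun t => (inv t.1 ∈ A ∧ t.2 ∈ Aᶜ) ∨ (inv t.1 ∈ Aᶜ ∧ t.2 ∈ A)) := by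
  unfold cap tn
  rw [turns_eq, List.countP_map]
  rfl

theorem wh_deg_self (A : Finset (Z N)) (a : Z N) (L : List (Z N)) :
    deg (wh A a L) a.1 = cap L A := by
  have key : ∀ l : List (Z N × Z N), (l.flatMap (fun t => (if t.1.1 = a.1 then [] else [t.1]) ++
      (if inv t.1 ∈ A then (if t.2 ∈ A then [] else [inv a])
        else (if t.2 ∈ A then [a] else [])))).countP (fun x => decide (x.1 = a.1)) =
      l.countP (fun t => (inv t.1 ∈ A ∧ t.2 ∈ Aᶜ) ∨ (inv t.1 ∈ Aᶜ ∧ t.2 ∈ A)) := by
    intro l
    induction l with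
    | nil => simp
    | cons t l ih =>
      rw [List.flatMap_cons, List.countP_append, ih, List.countP_cons, add_comm]
      congr 1
      by_cases h0 : t.1.1 = a.1 <;> by_cases h1 : inv t.1 ∈ A <;> by_cases h2 : t.2 ∈ A <;>
        simp [h0, h1, h2]
  unfold deg wh
  rw [key, ← cap_zip]

theorem wh_deg_other (A : Finset (Z N)) (a : Z N) (L : List (Z N)) (i : Fin N) (hi : i ≠ a.1) :
    deg (wh A a L) i = deg L i := by
  have hi' : ¬ (a.1 = i) := fun h => hi h.symm
  have key : ∀ l : List (Z N × Z N), (l.flatMap (fun t => (if t.1.1 = a.1 then [] else [t.1]) ++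
      (if inv t.1 ∈ A then (if t.2 ∈ A then [] else [inv a])
        else (if t.2 ∈ A then [a] else [])))).countP (fun x => decide (x.1 = i)) =
      l.countP (fun t => decide (t.1.1 = i)) := by
    intro l
    induction l with
    | nil => simp
    | cons t l ih =>
      rw [List.flatMap_cons, List.countP_append, ih, List.countP_cons, add_comm]
      congr 1
      by_cases h0 : t.1.1 = a.1
      · by_cases h1 : inv t.1 ∈ A <;> by_cases h2 : t.2 ∈ A <;> simp [h0, h1, h2, hi']
      · by_cases h1 : inv t.1 ∈ A <;> by_cases h2 : t.2 ∈ A <;>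
          simp [h0, h1, h2, hi', List.countP_cons]
  have h1 : (List.zip L (L.rotate 1)).map Prod.fst = L := by
    rw [List.map_fst_zip]
    simp
  have h2 : deg L i = ((List.zip L (L.rotate 1)).map Prod.fst).countP
      (fun x => decide (x.1 = i)) := by
    rw [h1]
    rfl
  rw [h2, List.countP_map]
  unfold deg wh
  rw [key]
  rfl

theorem wh_orb {u : FreeGroup (Fin N)} {L : List (Z N)} (hu : Orb u L) (A : Finset (Z N))
    (a : Z N) (haA : a ∈ A) (haA' : inv a ∉ A) : Orb u (wh A a L) :=
  orb_of_conj hu (autE (A.erase a) a) (wh_conj A a haA haA' L)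

/-! ### primitivity -/

/-- primitive element of `F_N` -/
def Prim (u : FreeGroup (Fin N)) : Prop :=
  ∃ (φ : FreeGroup (Fin N) ≃* FreeGroup (Fin N)) (i : Fin N), φ (FreeGroup.of i) = u

theorem prim_lift_fix (g : Fin N → FreeGroup (Fin N)) (i : Fin N)
    (hg : ∀ j, j ≠ i → g j = FreeGroup.of j) (W : List (Z N)) (hW : ∀ y ∈ W, y.1 ≠ i) :
    FreeGroup.lift g (FreeGroup.mk W) = FreeGroup.mk W := by
  conv_rhs => rw [← FreeGroup.lift_of_apply (FreeGroup.mk W)]
  rw [FreeGroup.lift_mk, FreeGroup.lift_mk]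
  congr 1
  refine List.map_congr_left fun y hy => ?_
  rw [hg y.1 (hW y hy)]

theorem prim_of_fix (i : Fin N) (p q : FreeGroup (Fin N)) (b : Bool)
    (hp : ∀ g : Fin N → FreeGroup (Fin N), (∀ j, j ≠ i → g j = FreeGroup.of j) →
      FreeGroup.lift g p = p)
    (hq : ∀ g : Fin N → FreeGroup (Fin N), (∀ j, j ≠ i → g j = FreeGroup.of j) →
      FreeGroup.lift g q = q) :
    Prim (p * (cond b (FreeGroup.of i) (FreeGroup.of i)⁻¹) * q) := by
  set g1 : Fin N → FreeGroup (Fin N) := fun j =>
    if j = i then p * (cond b (FreeGroup.of i) (FreeGroup.of i)⁻¹) * q else FreeGroup.of j with hg1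
  set g2 : Fin N → FreeGroup (Fin N) := fun j =>
    if j = i then cond b (p⁻¹ * FreeGroup.of i * q⁻¹) (q * (FreeGroup.of i)⁻¹ * p)
      else FreeGroup.of j with hg2
  have e1 : ∀ j, j ≠ i → g1 j = FreeGroup.of j := fun j hj => by simp [hg1, hj]
  have e2 : ∀ j, j ≠ i → g2 j = FreeGroup.of j := fun j hj => by simp [hg2, hj]
  have p1 := hp g1 e1
  have p2 := hp g2 e2
  have q1 := hq g1 e1
  have q2 := hq g2 e2
  have a1 : FreeGroup.lift g1 (FreeGroup.of i) =
      p * (cond b (FreeGroup.of i) (FreeGroup.of i)⁻¹) * q := by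
    rw [FreeGroup.lift_apply_of]; simp [hg1]
  have a2 : FreeGroup.lift g2 (FreeGroup.of i) =
      cond b (p⁻¹ * FreeGroup.of i * q⁻¹) (q * (FreeGroup.of i)⁻¹ * p) := by
    rw [FreeGroup.lift_apply_of]; simp [hg2]
  have h12 : (FreeGroup.lift g1).comp (FreeGroup.lift g2) = MonoidHom.id _ := by
    refine FreeGroup.ext_hom _ _ fun j => ?_
    by_cases hj : j = i
    · subst hj
      rw [MonoidHom.comp_apply, a2]
      cases b
      · simp only [cond_false, map_mul, map_inv, a1, p1, q1, MonoidHom.id_apply]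
        group
      · simp only [cond_true, map_mul, map_inv, a1, p1, q1, MonoidHom.id_apply]
        group
    · rw [MonoidHom.comp_apply, FreeGroup.lift_apply_of, e2 j hj, FreeGroup.lift_apply_of,
        e1 j hj, MonoidHom.id_apply]
  have h21 : (FreeGroup.lift g2).comp (FreeGroup.lift g1) = MonoidHom.id _ := by
    refine FreeGroup.ext_hom _ _ fun j => ?_
    by_cases hj : j = i
    · subst hj
      rw [MonoidHom.comp_apply, a1]
      cases b
      · simp only [cond_false, map_mul, map_inv, a2, p2, q2, MonoidHom.id_apply]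
        group
      · simp only [cond_true, map_mul, map_inv, a2, p2, q2, MonoidHom.id_apply]
        group
    · rw [MonoidHom.comp_apply, FreeGroup.lift_apply_of, e1 j hj, FreeGroup.lift_apply_of,
        e2 j hj, MonoidHom.id_apply]
  exact ⟨MonoidHom.toMulEquiv _ _ h21 h12, i, a1⟩

theorem prim_of_deg_one (L : List (Z N)) (i : Fin N) (h : deg L i = 1) :
    Prim (FreeGroup.mk L) := by
  have hpos : 0 < L.countP (fun x => decide (x.1 = i)) := by
    have h' : L.countP (fun x => decide (x.1 = i)) = 1 := h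
    omega
  rw [List.countP_pos_iff] at hpos
  obtain ⟨x, hx, hxi⟩ := hpos
  obtain ⟨P, Q, rfl⟩ := List.append_of_mem hx
  have h' : (P ++ x :: Q).countP (fun x => decide (x.1 = i)) = 1 := h
  rw [List.countP_append,
    List.countP_cons_of_pos (p := fun x : Z N => decide (x.1 = i)) hxi] at h'
  have hP : P.countP (fun x => decide (x.1 = i)) = 0 := by omega
  have hQ : Q.countP (fun x => decide (x.1 = i)) = 0 := by omega
  rw [List.countP_eq_zero] at hP hQ
  have hx1 : x.1 = i := of_decide_eq_true hxi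
  have key := prim_of_fix i (FreeGroup.mk P) (FreeGroup.mk Q) x.2
    (fun g hg => prim_lift_fix g i hg P fun y hy hyi => hP y hy (decide_eq_true hyi))
    (fun g hg => prim_lift_fix g i hg Q fun y hy hyi => hQ y hy (decide_eq_true hyi))
  have e : FreeGroup.mk (P ++ x :: Q) = FreeGroup.mk P *
      (cond x.2 (FreeGroup.of i) (FreeGroup.of i)⁻¹) * FreeGroup.mk Q := by
    have e1 : (cond x.2 (FreeGroup.of i) (FreeGroup.of i)⁻¹) = FreeGroup.mk [x] := by
      obtain ⟨j, b⟩ := x
      simp only at hx1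
      subst hx1
      cases b
      · simp [FreeGroup.of, FreeGroup.inv_mk, FreeGroup.invRev]
      · simp [FreeGroup.of]
    rw [e1, FreeGroup.mul_mk, FreeGroup.mul_mk]
    simp
  rw [e]
  exact key

theorem cap_aux (T : List (Z N × Z N)) (A : Finset (Z N)) :
    (T.map Prod.fst).countP (fun x => x ∈ A) + (T.map Prod.snd).countP (fun x => x ∈ A) =
      2 * T.countP (fun t => t.1 ∈ A ∧ t.2 ∈ A) +
        T.countP (fun t => (t.1 ∈ A ∧ t.2 ∈ Aᶜ) ∨ (t.1 ∈ Aᶜ ∧ t.2 ∈ A)) := by
  induction T with
  | nil => simp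
  | cons t T ih =>
    rw [List.map_cons, List.map_cons, List.countP_cons, List.countP_cons, List.countP_cons,
      List.countP_cons]
    have e : ∀ (a b c d x y z w : ℕ), a + b = 2 * c + d → x + y = 2 * z + w →
        a + x + (b + y) = 2 * (c + z) + (d + w) := by
      intros; omega
    refine e _ _ _ _ _ _ _ _ ih ?_
    by_cases h1 : t.1 ∈ A <;> by_cases h2 : t.2 ∈ A <;> simp [h1, h2]

/-- parity: the number of half-edge visits in `A` is `2 * (turns inside A) + cap` -/
theorem exists_of_cap_one (L : List (Z N)) (A : Finset (Z N)) (h : cap L A = 1) :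
    ∃ a : Z N, a ∈ A ∧ inv a ∉ A := by
  by_contra hcon
  push Not at hcon
  have hiff : ∀ x : Z N, inv x ∈ A ↔ x ∈ A := by
    intro x
    constructor
    · intro hx
      have := hcon _ hx
      rwa [inv_inv] at this
    · exact hcon x
  have h1 := cap_aux (turns L) A
  have hlen : (L.map inv).length = (L.rotate 1).length := by simp
  have e1 : (turns L).map Prod.fst = L.map inv := by
    unfold turns
    exact List.map_fst_zip hlen.le
  have e2 : (turns L).map Prod.snd = L.rotate 1 := by
    unfold turns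
    exact List.map_snd_zip hlen.ge
  have e3 : (L.map inv).countP (fun x => x ∈ A) = L.countP (fun x => x ∈ A) := by
    rw [List.countP_map]
    refine List.countP_congr fun x _ => ?_
    simp [hiff x]
  have e4 : (L.rotate 1).countP (fun x => x ∈ A) = L.countP (fun x => x ∈ A) :=
    (List.rotate_perm L 1).countP_eq _
  rw [e1, e2, e3, e4] at h1
  have h2 : (turns L).countP (fun t => (t.1 ∈ A ∧ t.2 ∈ Aᶜ) ∨ (t.1 ∈ Aᶜ ∧ t.2 ∈ A)) = 1 := h
  rw [h2] at h1
  omega

theorem prim_of_orb {u : FreeGroup (Fin N)} {L : List (Z N)} (h : Orb u L)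
    (hp : Prim (FreeGroup.mk L)) : Prim u := by
  obtain ⟨φ, hφ⟩ := h
  obtain ⟨ψ, i, hψ⟩ := hp
  rw [← hψ] at hφ
  obtain ⟨c, hc⟩ := isConj_iff.1 hφ.symm
  refine ⟨(ψ.trans (MulAut.conj c)).trans φ.symm, i, ?_⟩
  simp only [MulEquiv.trans_apply, MulAut.conj_apply]
  rw [hc]
  simp

/-- no vertex cut is crossed exactly once if `u` is not primitive -/
theorem cap_ne_one {u : FreeGroup (Fin N)} (hu : ¬ Prim u) {L : List (Z N)} (h : Orb u L)
    (A : Finset (Z N)) : cap L A ≠ 1 := by
  intro h1
  obtain ⟨a, ha, ha'⟩ := exists_of_cap_one L A h1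
  apply hu
  apply prim_of_orb (wh_orb h A a ha ha')
  apply prim_of_deg_one _ a.1
  rw [wh_deg_self, h1]

/-- a letter is not used exactly once if `u` is not primitive -/
theorem deg_ne_one {u : FreeGroup (Fin N)} (hu : ¬ Prim u) {L : List (Z N)} (h : Orb u L)
    (i : Fin N) : deg L i ≠ 1 := fun h1 => hu (prim_of_orb h (prim_of_deg_one _ i h1))

end PW
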