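import Mathlib
import Pool.Agent.Helper367.PW.M1

set_option autoImplicit false

/-! Module M1 (helper367), second part: the Whitehead move preserves good lists. -/

namespace PW

variable {N : ℕ}

/-- swap the letters `e` and `a` (and their inverses) -/
def swp (e a : Z N) : Z N ≃ Z N := (Equiv.swap e a).trans (Equiv.swap (inv e) (inv a))

theorem swp_e {e a : Z N} (h : e.1 ≠ a.1) : swp e a e = a := by
  have h1 : a ≠ inv e := fun h' => h (by rw [h']; rfl)
  have h2 : a ≠ inv a := inv_ne' a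
  simp [swp, Equiv.swap_apply_left, Equiv.swap_apply_of_ne_of_ne h1 h2]

theorem swp_a {e a : Z N} (h : e.1 ≠ a.1) : swp e a a = e := by
  have h1 : e ≠ inv a := fun h' => h (by rw [h']; rfl)
  have h2 : e ≠ inv e := inv_ne' e
  simp [swp, Equiv.swap_apply_right, Equiv.swap_apply_of_ne_of_ne h2 h1]

theorem swp_inve {e a : Z N} (h : e.1 ≠ a.1) : swp e a (inv e) = inv a := by
  have h1 : inv e ≠ a := fun h' => h (by rw [← h']; rfl)
  simp [swp, Equiv.swap_apply_of_ne_of_ne (inv_ne e) h1]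

theorem swp_inva {e a : Z N} (h : e.1 ≠ a.1) : swp e a (inv a) = inv e := by
  have h1 : inv a ≠ e := fun h' => h (by rw [← h']; rfl)
  simp [swp, Equiv.swap_apply_of_ne_of_ne h1 (inv_ne a)]

theorem swp_other {e a x : Z N} (h1 : x.1 ≠ e.1) (h2 : x.1 ≠ a.1) : swp e a x = x := by
  have a1 : x ≠ e := fun h' => h1 (by rw [h'])
  have a2 : x ≠ a := fun h' => h2 (by rw [h'])
  have a3 : x ≠ inv e := fun h' => h1 (by rw [h']; rfl)
  have a4 : x ≠ inv a := fun h' => h2 (by rw [h']; rfl)
  simp [swp, Equiv.swap_apply_of_ne_of_ne a1 a2, Equiv.swap_apply_of_ne_of_ne a3 a4]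

theorem swp_inv {e a : Z N} (h : e.1 ≠ a.1) (x : Z N) : swp e a (inv x) = inv (swp e a x) := by
  by_cases h1 : x.1 = e.1
  · rcases eq_or_eq_inv h1 with rfl | rfl
    · rw [swp_inve h, swp_e h]
    · rw [inv_inv, swp_inve h, swp_e h, inv_inv]
  · by_cases h2 : x.1 = a.1
    · rcases eq_or_eq_inv h2 with rfl | rfl
      · rw [swp_inva h, swp_a h]
      · rw [inv_inv, swp_inva h, swp_a h, inv_inv]
    · rw [swp_other h1 h2, swp_other (x := inv x) h1 h2]

/-- the Whitehead word is the renamed collapse of a blow-up -/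
theorem wh_eq (A : Finset (Z N)) (a e : Z N) (h : e.1 ≠ a.1) (L : List (Z N))
    (he : ∀ x ∈ L, x.1 ≠ e.1) :
    wh A a L = (coll a.1 (blow A e L)).map (swp e a) := by
  unfold wh coll blow
  rw [List.filter_flatMap, List.map_flatMap]
  apply List.flatMap_congr
  intro t ht
  have h1 : t.1 ∈ L := (List.of_mem_zip ht).1
  have h2 := he _ h1
  by_cases h0 : t.1.1 = a.1
  · by_cases c1 : inv t.1 ∈ A <;> by_cases c2 : t.2 ∈ A <;>
      simp [h0, c1, c2, h, swp_e h, swp_inve h]
  · by_cases c1 : inv t.1 ∈ A <;> by_cases c2 : t.2 ∈ A <;>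
      simp [h0, c1, c2, h, swp_e h, swp_inve h, swp_other h2 h0]

theorem wh_congr (A A' : Finset (Z N)) (a : Z N) (L : List (Z N))
    (h : ∀ x, x ∈ L → ((x ∈ A ↔ x ∈ A') ∧ (inv x ∈ A ↔ inv x ∈ A'))) :
    wh A a L = wh A' a L := by
  unfold wh
  apply List.flatMap_congr
  intro t ht
  have h1 : t.1 ∈ L := (List.of_mem_zip ht).1
  have h2 : t.2 ∈ L := List.mem_rotate.1 (List.of_mem_zip ht).2
  simp only [(h _ h1).2, (h _ h2).1]

theorem cap_congr (A A' : Finset (Z N)) (L : List (Z N))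
    (h : ∀ x, x ∈ L → ((x ∈ A ↔ x ∈ A') ∧ (inv x ∈ A ↔ inv x ∈ A'))) :
    cap L A = cap L A' := by
  rw [cap_zip, cap_zip]
  apply List.countP_congr
  intro t ht
  have h1 : t.1 ∈ L := (List.of_mem_zip ht).1
  have h2 : t.2 ∈ L := List.mem_rotate.1 (List.of_mem_zip ht).2
  simp only [Finset.mem_compl, (h _ h1).2, (h _ h2).1]

theorem not_mem_of_deg {L : List (Z N)} {e : Fin N} (h : deg L e = 0) : ∀ x ∈ L, x.1 ≠ e := by
  intro x hx h1
  unfold deg at h
  rw [List.countP_eq_zero] at h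
  exact h x hx (decide_eq_true h1)

theorem wh_tight_path {L : List (Z N)} {π : Z N → ℕ} (hne : L ≠ [])
    (ht : Tight L) (hp : ∀ t ∈ turns L, π t.1 = π t.2) (A : Finset (Z N)) (a : Z N)
    (hl : π a = π (inv a)) (haA : a ∈ A)
    (haA' : inv a ∉ A) (hA : ∀ x ∈ A, π x = π a) (e : Fin N) (hea : e ≠ a.1)
    (heL : ∀ x ∈ L, x.1 ≠ e) (hAe : ∀ x ∈ A, x.1 ≠ e) :
    wh A a L ≠ [] ∧ Tight (wh A a L) ∧ ∀ t ∈ turns (wh A a L), π t.1 = π t.2 := by
  set E : Z N := (e, true) with hE
  have hEa : E.1 ≠ a.1 := hea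
  obtain ⟨q, hq⟩ : ∃ q : ℕ, ∀ x : Z N, π x < q := by
    refine ⟨Finset.univ.sup π + 1, fun x => ?_⟩
    exact Nat.lt_succ_of_le (Finset.le_sup (Finset.mem_univ x))
  set π1 : Z N → ℕ := bpi π A E (π a) q with hπ1
  have hbne : blow A E L ≠ [] := blow_ne hne
  have hbt : Tight (blow A E L) := blow_tight A E L heL ht
  have hbp : ∀ t ∈ turns (blow A E L), π1 t.1 = π1 t.2 :=
    blow_path A E L heL hAe π (π a) q hA hp
  have n1 : inv a ≠ inv E := fun h => hEa (by
    have := congrArg Prod.fst h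
    simpa using this.symm)
  have n2 : inv a ≠ E := fun h => hEa (by
    have := congrArg Prod.fst h
    simpa using this.symm)
  have v1 : π1 a = q := by simp [hπ1, bpi, haA]
  have v2 : π1 (inv a) = π a := by
    simp only [hπ1, bpi, haA', n1, n2, or_self, if_false]
    exact hl.symm
  have hdist : π1 (inv a) ≠ π1 (inv (inv a)) := by
    rw [inv_inv, v1, v2]
    exact (hq a).ne
  have c0 := coll_blow (inv a) hdist hbne hbt hbp
  have c1 := coll_tight (inv a) hdist hbne hbt hbp
  have c2 := coll_path (inv a) hdist hbne hbt hbp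
  rw [inv_fst] at c0 c1 c2
  have hw := wh_eq A a E hEa L heL
  have key : ∀ x : Z N, x.1 ≠ a.1 → π (swp E a x) = cpi π1 (inv a) x := by
    intro x hx
    simp only [cpi, inv_inv, v1, v2]
    by_cases h1 : x.1 = E.1
    · rcases eq_or_eq_inv h1 with rfl | rfl
      · rw [swp_e hEa]
        have h2 : π1 E = π a := by
          have h3 : E ∉ A := fun h => hAe _ h rfl
          simp [hπ1, bpi, h3, inv_ne' E]
        rw [h2]
        split_ifs <;> rfl
      · rw [swp_inve hEa, ← hl]
        have h2 : π1 (inv E) = q := by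
          simp [hπ1, bpi]
        rw [h2]
        simp
    · rw [swp_other h1 hx]
      have h3 : x ≠ E := fun h => h1 (by rw [h])
      have h4 : x ≠ inv E := fun h => h1 (by rw [h]; rfl)
      by_cases h2 : x ∈ A
      · have h5 : π1 x = q := by simp [hπ1, bpi, h2]
        rw [h5, if_pos rfl]
        exact hA x h2
      · have h5 : π1 x = π x := by simp [hπ1, bpi, h2, h3, h4]
        rw [h5, if_neg (hq x).ne]
  refine ⟨?_, ?_, ?_⟩
  · rw [hw]
    intro h
    exact c0.1 (List.map_eq_nil_iff.1 h)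
  · rw [hw]
    exact ren_tight c1 _ (swp_inv hEa)
  · rw [hw, turns_map _ (swp_inv hEa)]
    intro t ht'
    obtain ⟨s, hs, rfl⟩ := List.mem_map.1 ht'
    have m := mem_turns hs
    have m1 : s.1.1 ≠ a.1 := by
      have := (mem_coll.1 m.1).2
      rwa [inv_fst] at this
    have m2 : s.2.1 ≠ a.1 := (mem_coll.1 m.2).2
    show π (swp E a s.1) = π (swp E a s.2)
    rw [key _ m1, key _ m2]
    exact c2 s hs

/-- Whitehead move of a large loop `a` at its vertex, `a ∈ A ⊆` half-edges at the vertex,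
`inv a ∉ A`; `e` is an unused letter (needed for the proof only) -/
theorem wh_good {L : List (Z N)} {Lg : Finset (Fin N)} {π : Z N → ℕ} {B : ℕ}
    (hG : Good L Lg π B) (A : Finset (Z N)) (a : Z N) (ha : a.1 ∈ Lg) (haA : a ∈ A)
    (haA' : inv a ∉ A) (hA : ∀ x ∈ A, π x = π a) (e : Fin N) (he : e ∉ Lg) (heL : deg L e = 0) :
    Good (wh A a L) Lg π B := by
  have hea : e ≠ a.1 := fun h => he (h ▸ ha)
  have hx := not_mem_of_deg heL
  set A' := A.filter (fun x => x.1 ≠ e) with hA'
  have hcg : ∀ x, x ∈ L → ((x ∈ A ↔ x ∈ A') ∧ (inv x ∈ A ↔ inv x ∈ A')) := by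
    intro x hxL
    have h1 := hx x hxL
    simp [hA', h1]
  have hl : π a = π (inv a) := by
    have h1 := hG.loop a.1 ha
    rcases a with ⟨i, b⟩
    cases b
    · simpa [inv] using h1.symm
    · simpa [inv] using h1
  have h := wh_tight_path hG.ne hG.tight hG.path A' a hl (by simp [hA', haA, Ne.symm hea])
    (by simp [hA', haA']) (fun x hx' => hA x (Finset.mem_filter.1 hx').1) e hea hx
    (fun x hx' => (Finset.mem_filter.1 hx').2)
  rw [← wh_congr A A' a L hcg] at h
  refine ⟨h.1, h.2.1, h.2.2, hG.loop, ?_⟩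
  intro i hi
  have hia : i ≠ a.1 := fun h' => hi (h' ▸ ha)
  rw [wh_deg_other A a L i hia]
  exact hG.small i hi

/-- length of the Whitehead word -/
theorem wh_length (A : Finset (Z N)) (a : Z N) (L : List (Z N)) :
    (wh A a L).length + deg L a.1 = L.length + cap L A := by
  have key : ∀ l : List (Z N × Z N), (l.flatMap (fun t => (if t.1.1 = a.1 then [] else [t.1]) ++
      (if inv t.1 ∈ A then (if t.2 ∈ A then [] else [inv a])
        else (if t.2 ∈ A then [a] else [])))).length + l.countP (fun t => decide (t.1.1 = a.1)) =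
      l.length + l.countP (fun t => (inv t.1 ∈ A ∧ t.2 ∈ Aᶜ) ∨ (inv t.1 ∈ Aᶜ ∧ t.2 ∈ A)) := by
    intro l
    induction l with
    | nil => simp
    | cons t l ih =>
      rw [List.flatMap_cons, List.length_append, List.countP_cons, List.countP_cons,
        List.length_cons]
      have e1 : ∀ (x y z w p q r : ℕ), y + w = z + r → x + p = 1 + q →
          x + y + (w + p) = z + 1 + (r + q) := by
        intros; omega
      refine e1 _ _ _ _ _ _ _ ih ?_
      by_cases h0 : t.1.1 = a.1 <;> by_cases h1 : inv t.1 ∈ A <;> by_cases h2 : t.2 ∈ A <;>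
        simp [h0, h1, h2]
  have h1 : (List.zip L (L.rotate 1)).map Prod.fst = L := by
    rw [List.map_fst_zip]
    simp
  have h2 : deg L a.1 = (List.zip L (L.rotate 1)).countP (fun t => decide (t.1.1 = a.1)) := by
    conv_lhs => rw [deg, ← h1]
    rw [List.countP_map]
    rfl
  have h3 : (List.zip L (L.rotate 1)).length = L.length := by simp
  rw [h2, cap_zip, wh, key, h3]

end PW
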